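import Pool.Agent.H211.HY.Stm1
import Pool.Graph.R_seed8.H790R3.RB.Basic
import Pool.Graph.R_seed8.H790R3.RB.TWR
import Pool.Graph.R_seed8.H790R3.RB.TPQ

/-!
The stratum of fixed multiplicities of the critical points is a manifold.
-/

set_option autoImplicit false

open Topology Filter Metric Set MeasureTheory Polynomial

namespace Pool.Agent.H286.HY211

open Pool.Agent.H790R3.RB Pool.Agent.H211.HY

/-! ### The implicit function theorem -/

theorem ift {E V : Type*} [NormedAddCommGroup E] [NormedSpace ℂ E] [FiniteDimensional ℂ E]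
    [NormedAddCommGroup V] [NormedSpace ℂ V] [FiniteDimensional ℂ V] {k : ℕ} {Φ : E → V} {e₀ : E}
    (hΦ : ContDiff ℂ 1 Φ) (h0 : Φ e₀ = 0) (hs : Function.Surjective (fderiv ℂ Φ e₀))
    {κ : Fin k → E} (hκ : ∀ l, fderiv ℂ Φ e₀ (κ l) = 0) :
    ∃ g : (Fin k → ℂ) → E, g 0 = e₀ ∧ (∀ᶠ s in 𝓝 (0 : Fin k → ℂ), DifferentiableAt ℂ g s) ∧
      (∀ᶠ s in 𝓝 (0 : Fin k → ℂ), Φ (g s) = 0) ∧
      ∀ l, fderiv ℂ g 0 (Pi.single l 1) = κ l := by
  have : CompleteSpace E := FiniteDimensional.complete ℂ E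
  have : CompleteSpace V := FiniteDimensional.complete ℂ V
  set L := fderiv ℂ Φ e₀ with hL
  obtain ⟨R', hR'⟩ := LinearMap.exists_rightInverse_of_surjective (L : E →ₗ[ℂ] V)
    (LinearMap.range_eq_top.2 hs)
  set R : V →L[ℂ] E := LinearMap.toContinuousLinearMap R' with hR
  have hLR : ∀ v, L (R v) = v := fun v => by
    have := LinearMap.congr_fun hR' v
    exact this
  set K : (Fin k → ℂ) →L[ℂ] E :=
    ∑ l, (ContinuousLinearMap.proj l : (Fin k → ℂ) →L[ℂ] ℂ).smulRight (κ l) with hK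
  have hKa : ∀ s, K s = ∑ l, s l • κ l := by
    intro s
    rw [hK, sum_apply]
    rfl
  have hLK : ∀ s, L (K s) = 0 := by
    intro s
    rw [hKa, map_sum]
    refine Finset.sum_eq_zero fun l _ => ?_
    rw [map_smul, hκ, smul_zero]
  set H : V × (Fin k → ℂ) → V × (Fin k → ℂ) := fun q => (Φ (e₀ + K q.2 + R q.1), q.2) with hH
  have hHc : ContDiff ℂ 1 H := by
    refine ContDiff.prodMk (hΦ.comp ?_) contDiff_snd
    exact (contDiff_const.add (K.contDiff.comp contDiff_snd)).add (R.contDiff.comp contDiff_fst)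
  have hH0 : H 0 = 0 := by
    have h1 : H 0 = (Φ e₀, 0) := by
      simp [hH]
    rw [h1, h0]
    rfl
  have hHd : HasFDerivAt H ((ContinuousLinearEquiv.refl ℂ (V × (Fin k → ℂ)) :
      (V × (Fin k → ℂ)) →L[ℂ] (V × (Fin k → ℂ)))) 0 := by
    have h1 : HasFDerivAt (fun q : V × (Fin k → ℂ) => e₀ + K q.2 + R q.1)
        (K.comp (ContinuousLinearMap.snd ℂ V (Fin k → ℂ)) +
          R.comp (ContinuousLinearMap.fst ℂ V (Fin k → ℂ))) 0 := by
      have h2 : HasFDerivAt (fun q : V × (Fin k → ℂ) => K q.2)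
          (K.comp (ContinuousLinearMap.snd ℂ V (Fin k → ℂ))) 0 :=
        K.hasFDerivAt.comp _ hasFDerivAt_snd
      have h3 : HasFDerivAt (fun q : V × (Fin k → ℂ) => R q.1)
          (R.comp (ContinuousLinearMap.fst ℂ V (Fin k → ℂ))) 0 :=
        R.hasFDerivAt.comp _ hasFDerivAt_fst
      exact (h2.const_add e₀).add h3
    have h4 : HasFDerivAt Φ L (e₀ + K (0 : V × (Fin k → ℂ)).2 + R (0 : V × (Fin k → ℂ)).1) := by
      have : e₀ + K (0 : V × (Fin k → ℂ)).2 + R (0 : V × (Fin k → ℂ)).1 = e₀ := by simp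
      rw [this]
      exact (hΦ.differentiable (by norm_num) e₀).hasFDerivAt
    have h5 := (h4.comp (0 : V × (Fin k → ℂ)) h1).prodMk
      (hasFDerivAt_snd (𝕜 := ℂ) (p := (0 : V × (Fin k → ℂ))))
    refine h5.congr_fderiv ?_
    refine ContinuousLinearMap.ext fun q => ?_
    refine Prod.ext ?_ rfl
    show L (K q.2 + R q.1) = q.1
    rw [map_add, hLK, hLR, zero_add]
  have hHca : ContDiffAt ℂ 1 H 0 := hHc.contDiffAt
  have h1n : (1 : WithTop ℕ∞) ≠ 0 := one_ne_zero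
  set J := hHca.localInverse hHd h1n with hJ
  have hJ0 : J 0 = 0 := by
    have := hHca.localInverse_apply_image hHd h1n
    rw [hH0] at this
    exact this
  have hJc : ContDiffAt ℂ 1 J 0 := by
    have := hHca.to_localInverse hHd h1n
    rw [hH0] at this
    exact this
  have hst := hHca.hasStrictFDerivAt' hHd h1n
  have hJd : HasFDerivAt J ((ContinuousLinearEquiv.refl ℂ (V × (Fin k → ℂ))).symm :
      (V × (Fin k → ℂ)) →L[ℂ] (V × (Fin k → ℂ))) 0 := by
    have := hst.to_localInverse.hasFDerivAt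
    rw [hH0] at this
    exact this
  have hJr : ∀ᶠ w in 𝓝 (0 : V × (Fin k → ℂ)), H (J w) = w := by
    have := hst.eventually_right_inverse
    rw [hH0] at this
    exact this
  have hi : HasFDerivAt (fun s : Fin k → ℂ => ((0 : V), s))
      (ContinuousLinearMap.inr ℂ V (Fin k → ℂ)) 0 :=
    (ContinuousLinearMap.inr ℂ V (Fin k → ℂ)).hasFDerivAt
  have hit : Tendsto (fun s : Fin k → ℂ => ((0 : V), s)) (𝓝 0) (𝓝 (0 : V × (Fin k → ℂ))) :=
    hi.continuousAt.tendsto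
  have hgc : ContDiffAt ℂ 1 (fun s => e₀ + K s + R (J (0, s)).1) 0 := by
    refine (contDiffAt_const.add K.contDiff.contDiffAt).add ?_
    refine R.contDiff.contDiffAt.comp _ ?_
    refine contDiffAt_fst.comp _ ?_
    exact ContDiffAt.comp (0 : Fin k → ℂ) (g := J) hJc
      ((ContinuousLinearMap.inr ℂ V (Fin k → ℂ)).contDiff.contDiffAt)
  have hgd : HasFDerivAt (fun s => e₀ + K s + R (J (0, s)).1) K 0 := by
    have h2 : HasFDerivAt (fun s : Fin k → ℂ => J (0, s)) _ 0 :=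
      HasFDerivAt.comp (0 : Fin k → ℂ) (g := J) hJd hi
    have h3 : HasFDerivAt (fun s : Fin k → ℂ => R (J (0, s)).1) _ 0 :=
      R.hasFDerivAt.comp _ h2.fst
    have h4 := (K.hasFDerivAt (x := (0 : Fin k → ℂ))).const_add e₀ |>.add h3
    refine h4.congr_fderiv ?_
    refine ContinuousLinearMap.ext fun s => ?_
    show K s + R (0 : V) = K s
    rw [map_zero, add_zero]
  refine ⟨fun s => e₀ + K s + R (J (0, s)).1, ?_, ?_, ?_, ?_⟩
  · have h2 : J ((0 : V), (0 : Fin k → ℂ)) = 0 := hJ0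
    simp only [h2]
    simp
  · filter_upwards [hgc.eventually (by simp)] with s hs
    exact hs.differentiableAt (by norm_num)
  · filter_upwards [hit.eventually hJr] with s hs
    have h2 : Φ (e₀ + K (J (0, s)).2 + R (J (0, s)).1) = 0 := congrArg Prod.fst hs
    have h3 : (J (0, s)).2 = s := congrArg Prod.snd hs
    rw [h3] at h2
    exact h2
  · intro l
    rw [hgd.fderiv, hKa]
    rw [Finset.sum_eq_single l]
    · rw [Pi.single_eq_same, one_smul]
    · intro b _ hb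
      rw [Pi.single_eq_of_ne hb, zero_smul]
    · intro h
      exact absurd (Finset.mem_univ l) h

/-! ### Polynomials -/

theorem exists_antideriv (S : ℂ[X]) : ∃ F : ℂ[X], derivative F = S := by
  induction S using Polynomial.induction_on' with
  | add p q hp hq =>
    obtain ⟨F, hF⟩ := hp
    obtain ⟨G, hG⟩ := hq
    exact ⟨F + G, by rw [derivative_add, hF, hG]⟩
  | monomial n a =>
    refine ⟨monomial (n + 1) (a / ((n : ℂ) + 1)), ?_⟩
    have h : ((n : ℂ) + 1) ≠ 0 := by exact_mod_cast Nat.succ_ne_zero n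
    rw [derivative_monomial, Nat.add_sub_cancel]
    congr 1
    push_cast
    exact div_mul_cancel₀ a h

theorem bez_aux {P Q u : ℂ[X]} {d : ℕ} (hd : 1 ≤ d) (h : IsCoprime P Q) (hP : P.natDegree ≤ d)
    (hQ : Q.natDegree = d) (hu : u.natDegree ≤ 2 * d) :
    ∃ A B : ℂ[X], A.natDegree ≤ d ∧ B.natDegree ≤ d ∧ A * Q - B * P = u := by
  obtain ⟨a, b, hab⟩ := h
  have hQ0 : Q ≠ 0 := by
    rintro rfl
    rw [natDegree_zero] at hQ
    omega
  set B := (-(u * a)) % Q with hB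
  set t := (-(u * a)) / Q with ht
  have h1 : Q * t + B = -(u * a) := EuclideanDomain.div_add_mod _ _
  have hBd : B.natDegree ≤ d := by
    rw [← hQ]
    exact natDegree_le_natDegree (degree_mod_lt _ hQ0).le
  have h2 : (u * b - t * P) * Q - B * P = u := by
    linear_combination (-P) * h1 + u * hab
  refine ⟨u * b - t * P, B, ?_, hBd, h2⟩
  by_cases hA : u * b - t * P = 0
  · rw [hA, natDegree_zero]
    exact Nat.zero_le _
  · have h3 : ((u * b - t * P) * Q).natDegree ≤ 2 * d := by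
      have h4 : (u * b - t * P) * Q = u + B * P := by linear_combination h2
      rw [h4]
      refine (natDegree_add_le _ _).trans (max_le hu ?_)
      refine natDegree_mul_le.trans ?_
      omega
    rw [natDegree_mul hA hQ0, hQ] at h3
    omega

theorem bez {P Q u : ℂ[X]} {d : ℕ} (hd : 1 ≤ d) (h : IsCoprime P Q)
    (hm : max P.natDegree Q.natDegree = d) (hu : u.natDegree ≤ 2 * d) :
    ∃ A B : ℂ[X], A.natDegree ≤ d ∧ B.natDegree ≤ d ∧ A * Q - B * P = u := by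
  have hP : P.natDegree ≤ d := hm ▸ le_max_left _ _
  have hQ : Q.natDegree ≤ d := hm ▸ le_max_right _ _
  rcases max_choice P.natDegree Q.natDegree with h1 | h1
  · rw [h1] at hm
    obtain ⟨A, B, hA, hB, hAB⟩ := bez_aux hd h.symm hQ hm hu
    refine ⟨-B, -A, by rwa [natDegree_neg], by rwa [natDegree_neg], ?_⟩
    rw [← hAB]
    ring
  · rw [h1] at hm
    exact bez_aux hd h hP hm hu

theorem pol_add {d : ℕ} (x y : CV d) (i : Fin 2) : pol (x + y) i = pol x i + pol y i := by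
  unfold pol
  rw [← Finset.sum_add_distrib]
  exact Finset.sum_congr rfl fun j _ => (monomial (j : ℕ)).map_add _ _

theorem pol_smul {d : ℕ} (t : ℂ) (x : CV d) (i : Fin 2) : pol (t • x) i = C t * pol x i := by
  unfold pol
  rw [Finset.mul_sum]
  refine Finset.sum_congr rfl fun j _ => ?_
  rw [C_mul_monomial]
  rfl

/-- the Jacobian determinant as a polynomial -/
noncomputable def pW {d : ℕ} (x : CV d) : ℂ[X] := C (d : ℂ) * Wp (pol x 0) (pol x 1)

/-- its polarisation -/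
noncomputable def pM {d : ℕ} (x y : CV d) : ℂ[X] :=
  C (d : ℂ) * (derivative (pol y 0) * pol x 1 + derivative (pol x 0) * pol y 1 -
    pol y 0 * derivative (pol x 1) - pol x 0 * derivative (pol y 1))

theorem pW_line {d : ℕ} (x y : CV d) (t : ℂ) :
    pW (x + t • y) = pW x + C t * pM x y + C t ^ 2 * pW y := by
  unfold pW pM Wp
  simp only [pol_add, pol_smul, derivative_add, derivative_mul, derivative_C, zero_mul, zero_add]
  ring

theorem form_eval {d : ℕ} (x : CV d) (i : Fin 2) (ζ : ℂ) :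
    (∑ j : Fin (d + 1), x (i, j) * (((j : ℕ) : ℂ) * ζ ^ ((j : ℕ) - 1) * 1 ^ (d - (j : ℕ)))) =
      (derivative (pol x i)).eval ζ ∧
    (∑ j : Fin (d + 1), x (i, j) * (((d - (j : ℕ) : ℕ) : ℂ) * ζ ^ (j : ℕ) *
      1 ^ (d - (j : ℕ) - 1))) = d * (pol x i).eval ζ - ζ * (derivative (pol x i)).eval ζ := by
  have h1 : (derivative (pol x i)).eval ζ =
      ∑ j : Fin (d + 1), x (i, j) * (((j : ℕ) : ℂ) * ζ ^ ((j : ℕ) - 1)) := by
    unfold pol
    rw [derivative_sum, eval_finsetSum]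
    refine Finset.sum_congr rfl fun j _ => ?_
    rw [derivative_monomial, eval_monomial]
    ring
  have h2 : (pol x i).eval ζ = ∑ j : Fin (d + 1), x (i, j) * ζ ^ (j : ℕ) := by
    unfold pol
    rw [eval_finsetSum]
    exact Finset.sum_congr rfl fun j _ => by rw [eval_monomial]
  refine ⟨?_, ?_⟩
  · rw [h1]
    simp only [one_pow, mul_one]
  · rw [h1, h2, Finset.mul_sum, Finset.mul_sum, ← Finset.sum_sub_distrib]
    refine Finset.sum_congr rfl fun j _ => ?_
    have hj : (j : ℕ) ≤ d := Nat.lt_succ_iff.1 j.2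
    rw [Nat.cast_sub hj, one_pow, mul_one]
    rcases Nat.eq_zero_or_pos (j : ℕ) with h | h
    · rw [h]
      simp
      ring
    · have h3 : ζ ^ (j : ℕ) = ζ * ζ ^ ((j : ℕ) - 1) := by
        rw [← pow_succ', Nat.sub_add_cancel h]
      rw [h3]
      ring

theorem pW_eval {d : ℕ} (x : CV d) (ζ : ℂ) : (pW x).eval ζ = wr x (ζ, 1) := by
  unfold wr
  simp only
  rw [(form_eval x 0 ζ).1, (form_eval x 0 ζ).2, (form_eval x 1 ζ).1, (form_eval x 1 ζ).2]
  unfold pW Wp
  rw [eval_mul, eval_C, eval_sub, eval_mul, eval_mul]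
  ring

theorem pW_deg {d : ℕ} (hd : 2 ≤ d) (x : CV d) : (pW x).natDegree ≤ 2 * d - 2 ∧
    (pW x).coeff (2 * d - 2) = wr x (1, 0) := by
  obtain ⟨-, ⟨W, hW1, hW2, hW3⟩, -⟩ := WR d x hd
  have h : pW x = W := Polynomial.funext fun ζ => by rw [pW_eval, hW2]
  rw [h]
  exact ⟨hW1, hW3⟩

theorem pM_deg {d : ℕ} (hd : 2 ≤ d) (x y : CV d) : (pM x y).natDegree ≤ 2 * d - 2 := by
  have h1 := pW_line x y 1
  rw [one_smul, map_one, one_mul, one_pow, one_mul] at h1
  have h2 : pM x y = pW (x + y) - pW x - pW y := by rw [h1]; ring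
  rw [h2]
  exact (natDegree_sub_le _ _).trans (max_le ((natDegree_sub_le _ _).trans
    (max_le (pW_deg hd _).1 (pW_deg hd _).1)) (pW_deg hd _).1)

theorem wr_line {d : ℕ} (hd : 2 ≤ d) (x y : CV d) (t : ℂ) : wr (x + t • y) (1, 0) =
    wr x (1, 0) + t * (pM x y).coeff (2 * d - 2) + t ^ 2 * wr y (1, 0) := by
  rw [← (pW_deg hd (x + t • y)).2, pW_line, coeff_add, coeff_add, ← C_pow, coeff_C_mul,
    coeff_C_mul, (pW_deg hd x).2, (pW_deg hd y).2]

theorem Up_surj {d : ℕ} (hd : 2 ≤ d) {x : CV d} (h : IsCoprime (pol x 0) (pol x 1))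
    (hm : max (pol x 0).natDegree (pol x 1).natDegree = d) {u : ℂ[X]} (hu : u.natDegree ≤ 2 * d) :
    ∃ y : CV d, Up x y = u := by
  obtain ⟨A, B, hA, hB, hAB⟩ := bez (by omega) h hm hu
  set y : CV d := fun r => if r.1 = 0 then A.coeff (r.2 : ℕ) else B.coeff (r.2 : ℕ) with hy
  refine ⟨y, ?_⟩
  have key : ∀ (y : CV d) (i : Fin 2) (R : ℂ[X]), R.natDegree ≤ d →
      (∀ j : Fin (d + 1), y (i, j) = R.coeff (j : ℕ)) → pol y i = R := by
    intro y i R hR hy
    unfold pol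
    rw [R.as_sum_range' (d + 1) (Nat.lt_succ_of_le hR), Finset.sum_range]
    exact Finset.sum_congr rfl fun j _ => by rw [hy j]
  have h0 : pol y 0 = A := key y 0 A hA (fun j => by simp [hy])
  have h1 : pol y 1 = B := key y 1 B hB (fun j => by simp [hy])
  unfold Up
  rw [h0, h1, hAB]

/-! ### Divisibility -/

section alg

variable {k : ℕ}

/-- the product of the powers `(X - c i) ^ m i` -/
noncomputable def Pp (c : Fin k → ℂ) (m : Fin k → ℕ) : ℂ[X] := ∏ i, (X - C (c i)) ^ m i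

/-- the product without the factor `i` -/
noncomputable def Tp (c : Fin k → ℂ) (m : Fin k → ℕ) (i : Fin k) : ℂ[X] :=
  ∏ j ∈ Finset.univ.erase i, (X - C (c j)) ^ m j

variable {c : Fin k → ℂ} {m : Fin k → ℕ}

theorem Pp_eq (i : Fin k) : Pp c m = (X - C (c i)) ^ m i * Tp c m i :=
  (Finset.mul_prod_erase Finset.univ (fun j => (X - C (c j)) ^ m j) (Finset.mem_univ i)).symm

theorem Pp_monic : (Pp c m).Monic :=
  monic_prod_of_monic _ _ fun _ _ => (monic_X_sub_C _).pow _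

theorem Tp_monic (i : Fin k) : (Tp c m i).Monic :=
  monic_prod_of_monic _ _ fun _ _ => (monic_X_sub_C _).pow _

theorem Pp_deg : (Pp c m).natDegree = ∑ i, m i := by
  unfold Pp
  rw [natDegree_prod_of_monic _ _ fun i _ => (monic_X_sub_C _).pow _]
  exact Finset.sum_congr rfl fun i _ => by
    rw [natDegree_pow, natDegree_X_sub_C, mul_one]

theorem Tp_deg (hm : ∀ i, 1 ≤ m i) (i : Fin k) :
    ((X - C (c i)) ^ (m i - 1) * Tp c m i).natDegree + 1 = ∑ i, m i := by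
  have h1 : Pp c m = (X - C (c i)) * ((X - C (c i)) ^ (m i - 1) * Tp c m i) := by
    rw [Pp_eq i, ← mul_assoc, ← pow_succ', Nat.sub_add_cancel (hm i)]
  have h2 := Pp_deg (c := c) (m := m)
  rw [h1, Monic.natDegree_mul (monic_X_sub_C _) (((monic_X_sub_C _).pow _).mul (Tp_monic i)),
    natDegree_X_sub_C] at h2
  omega

theorem cop_pow {Q : ℂ[X]} {a : ℂ} (h : Q.eval a ≠ 0) (n : ℕ) :
    IsCoprime ((X - C a) ^ n) Q := by
  refine IsCoprime.pow_left ?_
  rw [(irreducible_X_sub_C a).coprime_iff_not_dvd, dvd_iff_isRoot]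
  exact h

theorem Pp_cop {Q : ℂ[X]} (h : ∀ i, Q.eval (c i) ≠ 0) : IsCoprime (Pp c m) Q :=
  IsCoprime.prod_left fun i _ => cop_pow (h i) _

theorem Pp_dvd (hc : Function.Injective c) {D : ℂ[X]} (h : ∀ i, (X - C (c i)) ^ m i ∣ D) :
    Pp c m ∣ D := by
  refine Fintype.prod_dvd_of_coprime ?_ h
  intro i j hij
  exact IsCoprime.pow (pairwise_coprime_X_sub_C hc hij)

theorem Tp_ne (hc : Function.Injective c) (i : Fin k) : (Tp c m i).eval (c i) ≠ 0 := by
  unfold Tp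
  rw [eval_prod]
  refine Finset.prod_ne_zero_iff.2 fun j hj => ?_
  rw [eval_pow, eval_sub, eval_X, eval_C]
  exact pow_ne_zero _ (sub_ne_zero.2 fun h => Finset.ne_of_mem_erase hj (hc h).symm)

theorem Tp_dvd {i j : Fin k} (h : j ≠ i) : (X - C (c i)) ^ m i ∣ Tp c m j :=
  Finset.dvd_prod_of_mem (fun j => (X - C (c j)) ^ m j)
    (Finset.mem_erase.2 ⟨h.symm, Finset.mem_univ i⟩)

theorem solve_c {n : ℕ} (hc : Function.Injective c) (hm : ∀ i, 1 ≤ m i) (hn : ∑ i, m i = n)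
    {a : ℂ} (ha : a ≠ 0) {M R : ℂ[X]} (hM : M.natDegree ≤ n) (hR : R.degree < n)
    (h : ∀ i, (X - C (c i)) ^ (m i - 1) ∣ M - R) :
    ∃ γ : Fin k → ℂ, M - C (M.coeff n) * Pp c m +
      C a * ∑ i, C ((m i : ℂ) * γ i) * ((X - C (c i)) ^ (m i - 1) * Tp c m i) = R := by
  choose q hq using h
  refine ⟨fun i => -((q i).eval (c i)) / (a * (m i : ℂ) * (Tp c m i).eval (c i)), ?_⟩
  set γ : Fin k → ℂ := fun i => -((q i).eval (c i)) / (a * (m i : ℂ) * (Tp c m i).eval (c i))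
    with hγ
  have hm0 : ∀ i, (m i : ℂ) ≠ 0 := fun i => by
    have := hm i
    exact_mod_cast (by omega : m i ≠ 0)
  set S := ∑ i, C ((m i : ℂ) * γ i) * ((X - C (c i)) ^ (m i - 1) * Tp c m i) with hS
  have h1 : ∀ i, (X - C (c i)) ^ m i ∣ M - R + C a * S := by
    intro i
    have h2 : S = C ((m i : ℂ) * γ i) * ((X - C (c i)) ^ (m i - 1) * Tp c m i) +
        ∑ j ∈ Finset.univ.erase i,
          C ((m j : ℂ) * γ j) * ((X - C (c j)) ^ (m j - 1) * Tp c m j) :=
      (Finset.add_sum_erase Finset.univ _ (Finset.mem_univ i)).symm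
    have h3 : (X - C (c i)) ^ m i ∣ ∑ j ∈ Finset.univ.erase i,
        C ((m j : ℂ) * γ j) * ((X - C (c j)) ^ (m j - 1) * Tp c m j) := by
      refine Finset.dvd_sum fun j hj => ?_
      exact Dvd.dvd.mul_left (Dvd.dvd.mul_left (Tp_dvd (Finset.ne_of_mem_erase hj)) _) _
    have h4 : (X - C (c i)) ∣ q i + C a * C ((m i : ℂ) * γ i) * Tp c m i := by
      rw [dvd_iff_isRoot]
      show (q i + C a * C ((m i : ℂ) * γ i) * Tp c m i).eval (c i) = 0
      rw [eval_add, eval_mul, eval_mul, eval_C, eval_C, hγ]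
      have h5 := Tp_ne (m := m) hc i
      have h6 := hm0 i
      field_simp
      ring
    have h5 : M - R + C a * S = (X - C (c i)) ^ (m i - 1) *
        (q i + C a * C ((m i : ℂ) * γ i) * Tp c m i) + C a * ∑ j ∈ Finset.univ.erase i,
          C ((m j : ℂ) * γ j) * ((X - C (c j)) ^ (m j - 1) * Tp c m j) := by
      rw [h2, hq i]
      ring
    rw [h5]
    refine dvd_add ?_ (Dvd.dvd.mul_left h3 _)
    have h6 : (X - C (c i)) ^ m i = (X - C (c i)) ^ (m i - 1) * (X - C (c i)) := by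
      rw [← pow_succ, Nat.sub_add_cancel (hm i)]
    rw [h6]
    exact mul_dvd_mul_left _ h4
  have h2 : Pp c m ∣ M - R + C a * S - C (M.coeff n) * Pp c m :=
    dvd_sub (Pp_dvd hc h1) (dvd_mul_left _ _)
  have h3 : (M - C (M.coeff n) * Pp c m) - R + C a * S ∈ degreeLT ℂ n := by
    refine Submodule.add_mem _ (Submodule.sub_mem _ ?_ (mem_degreeLT.2 hR)) ?_
    · rw [mem_degreeLT, degree_lt_iff_coeff_zero]
      intro j hj
      rw [coeff_sub, coeff_C_mul]
      rcases hj.eq_or_lt with h4 | h4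
      · rw [← h4]
        have h5 : (Pp c m).coeff n = 1 := by
          rw [← hn, ← Pp_deg (c := c) (m := m)]
          exact Pp_monic.coeff_natDegree
        rw [h5, mul_one, sub_self]
      · have h5 : (Pp c m).coeff j = 0 :=
          coeff_eq_zero_of_natDegree_lt (by rw [Pp_deg, hn]; exact h4)
        rw [coeff_eq_zero_of_natDegree_lt (hM.trans_lt h4), h5, mul_zero, sub_zero]
    · rw [← smul_eq_C_mul]
      refine Submodule.smul_mem _ _ (Submodule.sum_mem _ fun i _ => ?_)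
      rw [← smul_eq_C_mul]
      refine Submodule.smul_mem _ _ ?_
      rw [mem_degreeLT]
      refine lt_of_le_of_lt degree_le_natDegree ?_
      have h4 := Tp_deg (c := c) hm i
      rw [hn] at h4
      exact_mod_cast (by omega : ((X - C (c i)) ^ (m i - 1) * Tp c m i).natDegree < n)
  have h4 : M - R + C a * S - C (M.coeff n) * Pp c m =
      (M - C (M.coeff n) * Pp c m) - R + C a * S := by ring
  rw [h4] at h2
  have h5 := eq_zero_of_dvd_of_degree_lt h2 (by
    rw [degree_eq_natDegree Pp_monic.ne_zero, Pp_deg, hn]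
    exact mem_degreeLT.1 h3)
  linear_combination h5

end alg

/-! ### The derivative of the equations -/

/-- the derivative of the equations, as a polynomial -/
noncomputable def Dp {d k : ℕ} (x : CV d) (c : Fin k → ℂ) (m : Fin k → ℕ) (δ : CV d)
    (γ : Fin k → ℂ) : ℂ[X] :=
  pM x δ - C ((pM x δ).coeff (2 * d - 2)) * Pp c m + C (wr x (1, 0)) *
    ∑ i, C ((m i : ℂ) * γ i) * ((X - C (c i)) ^ (m i - 1) * Tp c m i)

theorem deriv_eqn {d k : ℕ} (hd : 2 ≤ d) (x δ : CV d) (c γ : Fin k → ℂ) (m : Fin k → ℕ) (ζ : ℂ) :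
    HasDerivAt (fun t : ℂ => wr (x + t • δ) (ζ, 1) - wr (x + t • δ) (1, 0) *
      ∏ i, (ζ - (c + t • γ) i) ^ m i) ((Dp x c m δ γ).eval ζ) 0 := by
  have e1 : HasDerivAt (fun t : ℂ => wr (x + t • δ) (ζ, 1)) ((pM x δ).eval ζ) 0 := by
    have h1 : (fun t : ℂ => wr (x + t • δ) (ζ, 1)) = fun t : ℂ =>
        (pW x).eval ζ + t * (pM x δ).eval ζ + t ^ 2 * (pW δ).eval ζ := by
      funext t
      rw [← pW_eval, pW_line, eval_add, eval_add, eval_mul, eval_mul, eval_pow, eval_C]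
    rw [h1]
    have h2 := (((hasDerivAt_id (0 : ℂ)).mul_const ((pM x δ).eval ζ)).const_add
      ((pW x).eval ζ)).add ((hasDerivAt_pow 2 (0 : ℂ)).mul_const ((pW δ).eval ζ))
    refine h2.congr_deriv ?_
    simp
  have e2 : HasDerivAt (fun t : ℂ => wr (x + t • δ) (1, 0)) ((pM x δ).coeff (2 * d - 2)) 0 := by
    have h1 : (fun t : ℂ => wr (x + t • δ) (1, 0)) = fun t : ℂ =>
        wr x (1, 0) + t * (pM x δ).coeff (2 * d - 2) + t ^ 2 * wr δ (1, 0) := by
      funext t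
      exact wr_line hd x δ t
    rw [h1]
    have h2 := (((hasDerivAt_id (0 : ℂ)).mul_const ((pM x δ).coeff (2 * d - 2))).const_add
      (wr x (1, 0))).add ((hasDerivAt_pow 2 (0 : ℂ)).mul_const (wr δ (1, 0)))
    refine h2.congr_deriv ?_
    simp
  have e3 : HasDerivAt (fun t : ℂ => ∏ i, (ζ - (c + t • γ) i) ^ m i)
      (∑ i, (∏ j ∈ Finset.univ.erase i, (ζ - (c + (0 : ℂ) • γ) j) ^ m j) •
        ((m i : ℂ) * (ζ - (c + (0 : ℂ) • γ) i) ^ (m i - 1) * (-γ i))) 0 := by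
    refine HasDerivAt.fun_finsetProd fun i _ => ?_
    have h1 : HasDerivAt (fun t : ℂ => ζ - (c + t • γ) i) (-γ i) 0 := by
      have h2 := (((hasDerivAt_id (0 : ℂ)).mul_const (γ i)).const_add (c i)).const_sub ζ
      refine h2.congr_deriv ?_
      simp
    exact h1.pow (m i)
  refine (e1.sub (e2.mul e3)).congr_deriv ?_
  unfold Dp Tp Pp
  simp only [eval_add, eval_sub, eval_mul, eval_C, eval_prod, eval_pow, eval_X, eval_finsetSum,
    zero_smul, add_zero, smul_eq_mul, Finset.mul_sum]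
  have h3 : ∑ i, wr x (1, 0) * ((∏ j ∈ Finset.univ.erase i, (ζ - c j) ^ m j) *
      (↑(m i) * (ζ - c i) ^ (m i - 1) * -γ i)) =
      - ∑ i, wr x (1, 0) * ((m i : ℂ) * γ i * ((ζ - c i) ^ (m i - 1) *
        ∏ j ∈ Finset.univ.erase i, (ζ - c j) ^ m j)) := by
    rw [← Finset.sum_neg_distrib]
    exact Finset.sum_congr rfl fun i _ => by ring
  rw [h3]
  ring

/-- the equations -/
noncomputable def Ph {k : ℕ} (d : ℕ) (m : Fin k → ℕ) (e : CV d × (Fin k → ℂ))
    (j : Fin (2 * d - 2)) : ℂ :=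
  wr e.1 (((j : ℕ) : ℂ), 1) - wr e.1 (1, 0) * ∏ i, (((j : ℕ) : ℂ) - e.2 i) ^ m i

theorem Ph_contDiff {k : ℕ} (d : ℕ) (m : Fin k → ℕ) : ContDiff ℂ 1 (Ph d m) := by
  refine contDiff_pi.2 fun j => ?_
  unfold Ph
  have h1 : ∀ p : ℂ × ℂ, ContDiff ℂ 1 (fun e : CV d × (Fin k → ℂ) => wr e.1 p) := by
    intro p
    have h2 : ContDiff ℂ 1 (fun e : CV d × (Fin k → ℂ) => (e.1, p)) :=
      contDiff_fst.prodMk contDiff_const
    exact ContDiff.comp (g := fun q : CV d × (ℂ × ℂ) => wr q.1 q.2)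
      (f := fun e : CV d × (Fin k → ℂ) => (e.1, p)) (wr_contDiff d 1) h2
  refine (h1 _).sub ((h1 _).mul ?_)
  refine contDiff_prod fun i _ => ?_
  exact (contDiff_const.sub ((contDiff_apply ℂ ℂ i).comp contDiff_snd)).pow _

theorem fderiv_Ph {d k : ℕ} (hd : 2 ≤ d) (m : Fin k → ℕ) (x δ : CV d) (c γ : Fin k → ℂ)
    (j : Fin (2 * d - 2)) :
    fderiv ℂ (Ph d m) (x, c) (δ, γ) j = (Dp x c m δ γ).eval ((j : ℕ) : ℂ) := by
  have h1 : HasDerivAt (fun t : ℂ => ((x, c) : CV d × (Fin k → ℂ)) + t • (δ, γ)) (δ, γ) 0 := by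
    have h2 := ((hasDerivAt_id (0 : ℂ)).smul_const ((δ, γ) : CV d × (Fin k → ℂ))).const_add
      ((x, c) : CV d × (Fin k → ℂ))
    refine h2.congr_deriv ?_
    rw [one_smul]
  have h3 : HasFDerivAt (Ph d m) (fderiv ℂ (Ph d m) (x, c))
      (((x, c) : CV d × (Fin k → ℂ)) + (0 : ℂ) • (δ, γ)) := by
    rw [zero_smul, add_zero]
    exact ((Ph_contDiff d m).differentiable (by norm_num) (x, c)).hasFDerivAt
  have h4 := hasDerivAt_pi.1 (h3.comp_hasDerivAt (0 : ℂ) h1) j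
  exact h4.unique (deriv_eqn hd x δ c γ m ((j : ℕ) : ℂ))

theorem fac_of_zero {d k : ℕ} (hd : 2 ≤ d) {m : Fin k → ℕ} (hn : ∑ i, m i = 2 * d - 2)
    {x : CV d} {c : Fin k → ℂ} (h : Ph d m (x, c) = 0) (ζ : ℂ) :
    wr x (ζ, 1) = wr x (1, 0) * ∏ i, (ζ - c i) ^ m i := by
  obtain ⟨hW1, hW2⟩ := pW_deg hd x
  set D : ℂ[X] := pW x - C (wr x (1, 0)) * Pp c m with hD
  have hev : ∀ ζ, D.eval ζ = wr x (ζ, 1) - wr x (1, 0) * ∏ i, (ζ - c i) ^ m i := by
    intro ζ
    rw [hD, eval_sub, pW_eval, eval_mul, eval_C]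
    unfold Pp
    rw [eval_prod]
    simp only [eval_pow, eval_sub, eval_X, eval_C]
  have hDd : D.natDegree ≤ 2 * d - 2 := by
    refine (natDegree_sub_le _ _).trans (max_le hW1 ?_)
    refine (natDegree_C_mul_le _ _).trans ?_
    rw [Pp_deg, hn]
  have hDc : D.coeff (2 * d - 2) = 0 := by
    have h5 : (Pp c m).coeff (2 * d - 2) = 1 := by
      rw [← hn, ← Pp_deg (c := c) (m := m)]
      exact Pp_monic.coeff_natDegree
    rw [hD, coeff_sub, coeff_C_mul, hW2, h5, mul_one, sub_self]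
  have hlt : D.natDegree < Fintype.card (Fin (2 * d - 2)) := by
    rw [Fintype.card_fin]
    refine lt_of_le_of_ne hDd fun h => ?_
    have h1 : D.leadingCoeff = 0 := by rw [leadingCoeff, h, hDc]
    rw [leadingCoeff_eq_zero] at h1
    rw [h1, natDegree_zero] at h
    omega
  have hD0 : D = 0 := by
    refine eq_zero_of_natDegree_lt_card_of_eval_eq_zero D
      (f := fun j : Fin (2 * d - 2) => ((j : ℕ) : ℂ)) ?_ ?_ hlt
    · intro i j hij
      exact Fin.ext (Nat.cast_injective hij)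
    · intro j
      rw [hev]
      exact congrFun h j
  have h2 := hev ζ
  rw [hD0, eval_zero] at h2
  exact sub_eq_zero.1 h2.symm

theorem key_id {d : ℕ} (x δ : CV d) : pol x 1 * pM x δ =
    C (d : ℂ) * (derivative (Up x δ) * pol x 1 - 2 * Up x δ * derivative (pol x 1)) +
      2 * pol δ 1 * pW x := by
  unfold pM pW Wp Up
  simp only [derivative_sub, derivative_mul]
  ring

theorem dvd_der {k : ℕ} {c : Fin k → ℂ} {m : Fin k → ℕ} (i : Fin k) {D : ℂ[X]}
    (h : (X - C (c i)) ^ m i ∣ D) : (X - C (c i)) ^ (m i - 1) ∣ D ∧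
      (X - C (c i)) ^ (m i - 1) ∣ derivative D :=
  ⟨(pow_dvd_pow _ (Nat.sub_le _ _)).trans h, pow_sub_one_dvd_derivative_of_pow_dvd h⟩

/-- tangent directions -/
theorem tng_dvd {d k : ℕ} {x : CV d} {c : Fin k → ℂ} {m : Fin k → ℕ} {a : ℂ}
    (hW : pW x = C a * Pp c m) (hQ : ∀ i, (pol x 1).eval (c i) ≠ 0) {δ : CV d}
    (h : Tng (pol x 1) c m (Up x δ)) (i : Fin k) : (X - C (c i)) ^ (m i - 1) ∣ pM x δ := by
  obtain ⟨s, hs⟩ := h i
  obtain ⟨h1, h2⟩ := dvd_der i hs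
  obtain ⟨h3, -⟩ := dvd_der (c := c) (m := m) i (Dvd.intro _ (Pp_eq i).symm)
  have h4 : (X - C (c i)) ^ (m i - 1) ∣ pol x 1 * pM x δ := by
    have h5 : pol x 1 * pM x δ = C (d : ℂ) *
        (derivative (Up x δ - C s * pol x 1 ^ 2) * pol x 1 -
          2 * (Up x δ - C s * pol x 1 ^ 2) * derivative (pol x 1)) +
          2 * pol δ 1 * C a * Pp c m := by
      rw [key_id, hW]
      simp only [sq, derivative_sub, derivative_mul, derivative_C]
      ring
    rw [h5]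
    exact dvd_add (Dvd.dvd.mul_left (dvd_sub (Dvd.dvd.mul_right h2 _)
      (Dvd.dvd.mul_right (Dvd.dvd.mul_left h1 _) _)) _) (Dvd.dvd.mul_left h3 _)
  exact (cop_pow (hQ i) _).dvd_of_dvd_mul_left h4

/-- Hermite interpolation -/
theorem exists_dir {d k : ℕ} (hd : 2 ≤ d) {x : CV d} {c : Fin k → ℂ} {m : Fin k → ℕ} {a : ℂ}
    (hcop : IsCoprime (pol x 0) (pol x 1))
    (hmax : max (pol x 0).natDegree (pol x 1).natDegree = d) (hn : ∑ i, m i = 2 * d - 2)
    (hW : pW x = C a * Pp c m) (hQ : ∀ i, (pol x 1).eval (c i) ≠ 0) (R : ℂ[X]) :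
    ∃ δ : CV d, ∀ i, (X - C (c i)) ^ (m i - 1) ∣ pM x δ - R := by
  set Q := pol x 1 with hQd
  have hc2 : IsCoprime (Pp c m) (Q ^ 2) := (Pp_cop hQ).pow_right
  obtain ⟨p, q, hpq⟩ := hc2
  have hd0 : (d : ℂ) ≠ 0 := by exact_mod_cast (by omega : d ≠ 0)
  have hCd : C (d : ℂ) * C ((d : ℂ)⁻¹) = 1 := by rw [← C_mul, mul_inv_cancel₀ hd0, C_1]
  obtain ⟨F, hF⟩ := exists_antideriv (C ((d : ℂ)⁻¹) * R * q)
  set u := (Q ^ 2 * F) %ₘ Pp c m with hu
  set g := (Q ^ 2 * F) /ₘ Pp c m with hg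
  have hug : u + Pp c m * g = Q ^ 2 * F := modByMonic_add_div _ _
  have hud : u.natDegree ≤ 2 * d := by
    have h1 : u.degree < (Pp c m).degree := degree_modByMonic_lt _ Pp_monic
    have h2 := natDegree_le_natDegree h1.le
    rw [Pp_deg, hn] at h2
    omega
  obtain ⟨δ, hδ⟩ := Up_surj hd hcop hmax hud
  refine ⟨δ, fun i => ?_⟩
  obtain ⟨h3, h3'⟩ := dvd_der (c := c) (m := m) i (Dvd.intro _ (Pp_eq i).symm)
  have hue : u = Q ^ 2 * F - Pp c m * g := by rw [← hug]; ring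
  have h4 : (X - C (c i)) ^ (m i - 1) ∣ Q * (pM x δ - R) := by
    have h5 : Q * (pM x δ - R) = derivative (Pp c m) * (- C (d : ℂ) * g * Q) +
        Pp c m * (C (d : ℂ) * (2 * g * derivative Q - derivative g * Q) +
          2 * pol δ 1 * C a - p * R * Q) := by
      rw [mul_sub, key_id, hδ, hW, hue]
      simp only [sq, derivative_sub, derivative_mul, hF]
      linear_combination (Q ^ 3 * R * q) * hCd + (Q * R) * hpq
    rw [h5]
    exact dvd_add (Dvd.dvd.mul_right h3' _) (Dvd.dvd.mul_right h3 _)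
  exact (cop_pow (hQ i) _).dvd_of_dvd_mul_left h4

theorem nd_open {d : ℕ} {x₀ : CV d} (h0 : ND x₀) : ∀ᶠ x in 𝓝 x₀, ND x := by
  have hK : IsCompact (sphere (0 : ℂ × ℂ) 1) := isCompact_sphere 0 1
  have h1 : ∀ᶠ x in 𝓝 x₀, ∀ p ∈ sphere (0 : ℂ × ℂ) 1, hF x p ≠ 0 := by
    apply hK.eventually_forall_of_forall_eventually
    intro p hp
    have hc : ContinuousAt (fun q : CV d × (ℂ × ℂ) => hF q.1 q.2) (x₀, p) :=
      (hF_contDiff d 1).continuous.continuousAt
    apply hc.eventually_ne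
    intro h
    have := h0 p h
    rw [this] at hp
    simp at hp
  filter_upwards [h1] with x hx p hp
  by_contra hne
  have hn : ‖p‖ ≠ 0 := norm_ne_zero_iff.mpr hne
  have hn' : ((‖p‖ : ℝ) : ℂ) ≠ 0 := by exact_mod_cast hn
  apply hx ((((‖p‖ : ℝ) : ℂ)⁻¹) • p)
  · rw [mem_sphere_zero_iff_norm, norm_smul, norm_inv, Complex.norm_real, norm_norm,
      inv_mul_cancel₀ hn]
  · rw [hF_smul, hp, smul_zero]

theorem t_FAM : S_FAM := by
  intro d k x₀ c₀ m b hd hnd hw hfac hQ hT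
  have hpW : pW x₀ = C (wr x₀ (1, 0)) * Pp c₀ m := by
    refine Polynomial.funext fun ζ => ?_
    rw [pW_eval, hfac.fac ζ, eval_mul, eval_C]
    unfold Pp
    rw [eval_prod]
    simp only [eval_pow, eval_sub, eval_X, eval_C]
  obtain ⟨hcop, hmax⟩ := PQ.part1 (by omega) x₀ hnd
  have hn := hfac.deg
  have h0 : Ph d m (x₀, c₀) = 0 := by
    funext j
    show wr x₀ (((j : ℕ) : ℂ), 1) - _ = 0
    rw [hfac.fac]
    exact sub_self _
  have hγ : ∀ l, ∃ γ : Fin k → ℂ, Dp x₀ c₀ m (b l) γ = 0 := by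
    intro l
    have e1 : (0 : ℂ[X]).degree < (2 * d - 2 : ℕ) := by
      rw [degree_zero]
      exact WithBot.bot_lt_coe _
    have e2 : ∀ i, (X - C (c₀ i)) ^ (m i - 1) ∣ pM x₀ (b l) - 0 := by
      intro i
      rw [sub_zero]
      exact tng_dvd hpW hQ (hT l) i
    obtain ⟨γ, e3⟩ := solve_c hfac.inj hfac.pos hn hw (pM_deg hd x₀ (b l)) e1 e2
    exact ⟨γ, e3⟩
  choose γ hγ using hγ
  have hs : Function.Surjective (fderiv ℂ (Ph d m) (x₀, c₀)) := by
    intro r
    set R : ℂ[X] := Lagrange.interpolate Finset.univ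
      (fun j : Fin (2 * d - 2) => ((j : ℕ) : ℂ)) r with hR
    have hinj : Set.InjOn (fun j : Fin (2 * d - 2) => ((j : ℕ) : ℂ))
        ((Finset.univ : Finset (Fin (2 * d - 2))) : Set (Fin (2 * d - 2))) := by
      intro i _ j _ hij
      exact Fin.ext (Nat.cast_injective hij)
    have hRd : R.degree < (2 * d - 2 : ℕ) := by
      have := Lagrange.degree_interpolate_lt r hinj
      rwa [Finset.card_univ, Fintype.card_fin] at this
    obtain ⟨δ, hδ⟩ := exists_dir hd hcop hmax hn hpW hQ R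
    obtain ⟨γ', hγ'⟩ := solve_c hfac.inj hfac.pos hn hw (pM_deg hd x₀ δ) hRd hδ
    refine ⟨(δ, γ'), ?_⟩
    funext j
    rw [fderiv_Ph hd]
    have h1 : Dp x₀ c₀ m δ γ' = R := hγ'
    rw [h1]
    exact Lagrange.eval_interpolate_at_node r hinj (Finset.mem_univ j)
  obtain ⟨g, hg0, hg1, hg2, hg3⟩ := ift (Ph_contDiff d m) h0 hs (κ := fun l => (b l, γ l))
    (fun l => by
      funext j
      rw [fderiv_Ph hd, hγ l, eval_zero]
      rfl)
  have hgd0 : DifferentiableAt ℂ g 0 := hg1.self_of_nhds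
  have hX0 : Tendsto (fun s => (g s).1) (𝓝 0) (𝓝 x₀) := by
    have h1 : ContinuousAt (fun s => (g s).1) 0 := hgd0.continuousAt.fst
    have h2 : (g 0).1 = x₀ := by rw [hg0]
    rw [← h2]
    exact h1
  have hnd1 : ∀ᶠ s in 𝓝 (0 : Fin k → ℂ), ND (g s).1 := hX0.eventually (nd_open hnd)
  have hne0 : ∀ᶠ x in 𝓝 x₀, wr x (1, 0) ≠ 0 := by
    have h2 : Continuous (fun x : CV d => (x, ((1, 0) : ℂ × ℂ))) :=
      continuous_id.prodMk continuous_const
    have h1 : Continuous (fun x : CV d => wr x (1, 0)) :=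
      Continuous.comp (g := fun q : CV d × (ℂ × ℂ) => wr q.1 q.2)
        (f := fun x : CV d => (x, ((1, 0) : ℂ × ℂ))) (wr_contDiff d 1).continuous h2
    exact h1.continuousAt.eventually_ne hw
  have hne1 : ∀ᶠ s in 𝓝 (0 : Fin k → ℂ), wr (g s).1 (1, 0) ≠ 0 := hX0.eventually hne0
  obtain ⟨ρ, hρ, hρ1⟩ := Metric.eventually_nhds_iff_ball.1
    ((hg1.and hg2).and (hnd1.and hne1))
  refine ⟨ρ, fun s => (g s).1, fun i s => (g s).2 i, ⟨hρ, ?_, ?_, ?_, ?_, ?_, ?_, ?_⟩, ?_⟩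
  · intro s hs
    exact (hρ1 s hs).1.1.fst.differentiableWithinAt
  · show (g 0).1 = x₀
    rw [hg0]
  · intro i s hs
    exact (differentiableAt_pi.1 (hρ1 s hs).1.1.snd i).differentiableWithinAt
  · intro i
    show (g 0).2 i = c₀ i
    rw [hg0]
  · intro s hs
    exact (hρ1 s hs).2.1
  · intro s hs
    exact (hρ1 s hs).2.2
  · intro s hs ζ
    exact fac_of_zero hd hn (x := (g s).1) (c := (g s).2) (hρ1 s hs).1.2 ζ
  · intro l
    have h1 : HasFDerivAt (fun s => (g s).1) _ 0 := hgd0.hasFDerivAt.fst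
    rw [h1.fderiv]
    show (fderiv ℂ g 0 (Pi.single l 1)).1 = b l
    rw [hg3 l]

end Pool.Agent.H286.HY211
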